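import Pool.Agent.Helper5.KPA.StD

set_option autoImplicit false

namespace Pool.Agent.Helper38.KPA

open Pool.Agent.Helper5.KPA Pool.Agent.Helper52.KP MvPolynomial

section Adu

variable {s : ℕ} {V : Type} [AddCommGroup V] [Module ℂ V]

theorem adu_hp_natCast {i : ℕ} {p : MvPolynomial (Fin s) ℂ} :
    p ∈ hp s (i : ℤ) ↔ p.IsHomogeneous i := by
  unfold hp
  rw [if_pos (Int.natCast_nonneg i), Int.toNat_natCast, mem_homogeneousSubmodule]

theorem adu_hp_mul {i : ℕ} {j : ℤ} {p q : MvPolynomial (Fin s) ℂ} (hp' : p ∈ hp s (i : ℤ))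
    (hq : q ∈ hp s j) : p * q ∈ hp s ((i : ℤ) + j) := by
  by_cases hj : 0 ≤ j
  · lift j to ℕ using hj
    rw [adu_hp_natCast] at hp' hq
    rw [← Nat.cast_add, adu_hp_natCast]
    exact hp'.mul hq
  · unfold hp at hq
    rw [if_neg hj, Submodule.mem_bot] at hq
    rw [hq, mul_zero]
    exact (hp s _).zero_mem

theorem adu_iSup_zm : (⨆ k, (zm k : Submodule ℂ V)) = ⊥ := by
  simp [zm]

/-- multiplication of the polynomial of a basis -/
theorem adu_bas_mul {ι : MvPolynomial (Fin s) ℂ →ₐ[ℂ] Module.End ℂ V} {M : ℕ → Submodule ℂ V}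
    {c : ℕ} {t : Fin c → V} {dt : Fin c → ℕ} {γ : ℕ} {g : MvPolynomial (Fin s) ℂ}
    (hB : Bas ι zm M t dt γ g) (d : ℕ) (a : MvPolynomial (Fin s) ℂ) (ha : a ≠ 0)
    (had : a ∈ hp s (d : ℤ)) : Bas ι zm M t dt (d + γ) (a * g) where
  mem := hB.mem
  ind := hB.ind
  g0 := mul_ne_zero ha hB.g0
  gh := by
    have h := adu_hp_mul had hB.gh
    rw [Nat.cast_add]
    exact h
  exp := by
    intro k x hx
    obtain ⟨α, hα, hx'⟩ := hB.exp k x hx
    refine ⟨fun j => a * α j, fun j => ?_, ?_⟩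
    · have h := adu_hp_mul had (hα j)
      have h2 : (k : ℤ) + ((d + γ : ℕ) : ℤ) - dt j = (d : ℤ) + ((k : ℤ) + γ - dt j) := by
        push_cast; ring
      rw [h2]
      exact h
    · have h0 : ι g x - ∑ j, ι (α j) (t j) = 0 := by
        simpa [zm] using hx'
      have h1 : ι (a * g) x - ∑ j, ι (a * α j) (t j) = 0 := by
        have h2 : ι a (ι g x - ∑ j, ι (α j) (t j)) = 0 := by rw [h0, map_zero]
        rw [map_sub, map_sum] at h2
        simpa [map_mul, Module.End.mul_apply] using h2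
      rw [h1]
      exact Submodule.zero_mem _

/-- the value at the first basis vector -/
theorem adu_eval_single {e : ℕ} {δ : ℕ} {p : MvPolynomial (Fin (e + 1)) ℂ}
    (hpp : p.IsHomogeneous δ) :
    eval (Pi.single (0 : Fin (e + 1)) (1 : ℂ)) p = coeff (Finsupp.single 0 δ) p := by
  classical
  rw [eval_eq]
  have h1 : ∀ d ∈ p.support, coeff d p * ∏ i ∈ d.support,
      (Pi.single (0 : Fin (e + 1)) (1 : ℂ) : Fin (e + 1) → ℂ) i ^ d i =
      if d = Finsupp.single 0 δ then coeff d p else 0 := by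
    intro d hd
    have hdeg : d.degree = δ := by
      have := hpp (mem_support_iff.mp hd)
      rw [← this, Finsupp.degree_eq_weight_one (R := ℕ)]
      rfl
    split_ifs with h
    · have : ∏ i ∈ d.support,
          (Pi.single (0 : Fin (e + 1)) (1 : ℂ) : Fin (e + 1) → ℂ) i ^ d i = 1 := by
        apply Finset.prod_eq_one
        intro i hi
        by_cases h0 : i = 0
        · subst h0
          simp
        · rw [h, Finsupp.mem_support_iff, Finsupp.single_apply, if_neg (Ne.symm h0)] at hi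
          exact absurd rfl hi
      rw [this, mul_one]
    · have hex : ∃ i ∈ d.support, i ≠ 0 := by
        by_contra hcon
        push Not at hcon
        apply h
        ext i
        rw [Finsupp.single_apply]
        have hs : ∀ i, i ≠ 0 → d i = 0 := by
          intro i hi
          by_contra hdi
          exact hi (hcon i (Finsupp.mem_support_iff.mpr hdi))
        split_ifs with h0
        · subst h0
          rw [← hdeg, Finsupp.degree_eq_sum]
          rw [Finset.sum_eq_single (0 : Fin (e + 1))]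
          · intro j _ hj
            exact hs j hj
          · intro hh
            exact absurd (Finset.mem_univ _) hh
        · exact hs i (Ne.symm h0)
      obtain ⟨i, hi, hi0⟩ := hex
      have : ∏ i ∈ d.support,
          (Pi.single (0 : Fin (e + 1)) (1 : ℂ) : Fin (e + 1) → ℂ) i ^ d i = 0 := by
        apply Finset.prod_eq_zero hi
        rw [Pi.single_eq_of_ne hi0, zero_pow (Finsupp.mem_support_iff.mp hi)]
      rw [this, mul_zero]
  rw [Finset.sum_congr rfl h1, Finset.sum_ite_eq']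
  split_ifs with h
  · rfl
  · exact (notMem_support_iff.mp h).symm

/-- the linear form of a row -/
noncomputable def adu_lin (G : Matrix (Fin s) (Fin s) ℂ) (i : Fin s) : MvPolynomial (Fin s) ℂ :=
  ∑ j, G i j • X j

theorem adu_lin_mem (G : Matrix (Fin s) (Fin s) ℂ) (i : Fin s) :
    (adu_lin G i).IsHomogeneous 1 := by
  unfold adu_lin
  rw [← mem_homogeneousSubmodule]
  exact Submodule.sum_mem _ fun j _ => Submodule.smul_mem _ _
    ((mem_homogeneousSubmodule _ _).mpr (isHomogeneous_X _ _))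

/-- the linear substitution -/
noncomputable def adu_sub (G : Matrix (Fin s) (Fin s) ℂ) :
    MvPolynomial (Fin s) ℂ →ₐ[ℂ] MvPolynomial (Fin s) ℂ := aeval (adu_lin G)

theorem adu_sub_X (G : Matrix (Fin s) (Fin s) ℂ) (i : Fin s) :
    adu_sub G (X i) = ∑ j, G i j • X j := by
  unfold adu_sub
  rw [aeval_X]
  rfl

theorem adu_sub_hom (G : Matrix (Fin s) (Fin s) ℂ) {i : ℤ} {p : MvPolynomial (Fin s) ℂ}
    (hp' : p ∈ hp s i) : adu_sub G p ∈ hp s i := by
  by_cases hi : 0 ≤ i
  · lift i to ℕ using hi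
    rw [adu_hp_natCast] at hp' ⊢
    have h := hp'.aeval (adu_lin G) (n := 1) (fun j => adu_lin_mem G j)
    rw [one_mul] at h
    exact h
  · unfold hp at hp' ⊢
    rw [if_neg hi, Submodule.mem_bot] at hp' ⊢
    rw [hp', map_zero]

theorem adu_sub_comp (G G' : Matrix (Fin s) (Fin s) ℂ) (h : G' * G = 1) :
    (adu_sub G).comp (adu_sub G') = AlgHom.id ℂ _ := by
  apply MvPolynomial.algHom_ext
  intro i
  rw [AlgHom.comp_apply, adu_sub_X, map_sum, AlgHom.id_apply]
  simp only [map_smul, adu_sub_X, Finset.smul_sum, smul_smul]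
  rw [Finset.sum_comm]
  have h2 : ∀ k, ∑ j, (G' i j * G j k) • (X k : MvPolynomial (Fin s) ℂ) =
      (if i = k then (1 : ℂ) else 0) • X k := by
    intro k
    rw [← Finset.sum_smul]
    congr 1
    have := congrFun (congrFun h i) k
    rw [Matrix.mul_apply, Matrix.one_apply] at this
    exact this
  rw [Finset.sum_congr rfl fun k _ => h2 k]
  simp

/-- the inverse linear substitution -/
theorem adu_left (G G' : Matrix (Fin s) (Fin s) ℂ) (h : G' * G = 1) (p : MvPolynomial (Fin s) ℂ) :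
    adu_sub G (adu_sub G' p) = p := by
  have := congrArg (fun F => F p) (adu_sub_comp G G' h)
  simpa using this

theorem adu_gr {ι : MvPolynomial (Fin s) ℂ →ₐ[ℂ] Module.End ℂ V} {M : ℕ → Submodule ℂ V}
    (hM : Gr ι M) (G' : Matrix (Fin s) (Fin s) ℂ) : Gr (ι.comp (adu_sub G')) M where
  ind := hM.ind
  act := by
    intro k i x hx
    rw [AlgHom.comp_apply, adu_sub_X, map_sum, LinearMap.sum_apply]
    refine Submodule.sum_mem _ fun j _ => ?_
    rw [map_smul, LinearMap.smul_apply]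
    exact Submodule.smul_mem _ _ (hM.act k j x hx)
  fd := hM.fd

/-- change of coordinates for lattices: `ι' = ι ∘ (substitution G')` -/
theorem adu_lat {ι : MvPolynomial (Fin s) ℂ →ₐ[ℂ] Module.End ℂ V} {M : ℕ → Submodule ℂ V}
    (hM : Lat ι M) (G G' : Matrix (Fin s) (Fin s) ℂ) (h1 : G' * G = 1) (h2 : G * G' = 1) :
    Lat (ι.comp (adu_sub G')) M where
  gr := adu_gr hM.gr G'
  fg :=
    { le := hM.fg.le
      act := by
        intro k i x hx
        have hx0 : x = 0 := by simpa [zm] using hx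
        rw [hx0, map_zero]
        exact Submodule.zero_mem _
      fg := by
        obtain ⟨D, hD⟩ := hM.fg.fg
        refine ⟨D, fun k hk x hx => ?_⟩
        obtain ⟨y, hy, hxy⟩ := hD k hk x hx
        refine ⟨fun j => ∑ i, G i j • y i, fun j => Submodule.sum_mem _ fun i _ =>
          Submodule.smul_mem _ _ (hy i), ?_⟩
        have hkey : ∑ j, (ι.comp (adu_sub G')) (X j) (∑ i, G i j • y i) =
            ∑ i, ι (X i) (y i) := by
          have h3 : ∀ i, ι (X i) (y i) = ∑ j, G i j • (ι.comp (adu_sub G')) (X j) (y i) := by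
            intro i
            have h4 : (X i : MvPolynomial (Fin s) ℂ) = ∑ j, G i j • adu_sub G' (X j) := by
              have h5 := adu_left G' G h2 (X i)
              rw [adu_sub_X, map_sum] at h5
              simp only [map_smul] at h5
              exact h5.symm
            rw [h4, map_sum, LinearMap.sum_apply]
            refine Finset.sum_congr rfl fun j _ => ?_
            rw [map_smul, LinearMap.smul_apply]
            rfl
          rw [Finset.sum_congr rfl fun i _ => h3 i, Finset.sum_comm]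
          refine Finset.sum_congr rfl fun j _ => ?_
          rw [map_sum]
          refine Finset.sum_congr rfl fun i _ => ?_
          rw [map_smul]
        rw [hkey]
        exact hxy }
  tf := by
    intro a x ha hx h
    refine hM.tf (adu_sub G' a) x ?_ hx h
    intro h0
    apply ha
    have h3 := adu_left G G' h1 a
    rw [h0, map_zero] at h3
    exact h3.symm
  ne := hM.ne

theorem adu_bas {ι : MvPolynomial (Fin s) ℂ →ₐ[ℂ] Module.End ℂ V} {M : ℕ → Submodule ℂ V}
    {c : ℕ} {t : Fin c → V} {dt : Fin c → ℕ} {γ : ℕ} {g : MvPolynomial (Fin s) ℂ}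
    (hB : Bas ι zm M t dt γ g) (G G' : Matrix (Fin s) (Fin s) ℂ) (h1 : G' * G = 1)
    (h2 : G * G' = 1) : Bas (ι.comp (adu_sub G')) zm M t dt γ (adu_sub G g) where
  mem := hB.mem
  ind := by
    intro α hα
    have h3 := hB.ind (fun j => adu_sub G' (α j)) hα
    funext j
    have h4 := congrFun h3 j
    have h5 := adu_left G G' h1 (α j)
    simp only [Pi.zero_apply] at h4 ⊢
    rw [h4, map_zero] at h5
    exact h5.symm
  g0 := by
    intro h0
    apply hB.g0
    have h3 := adu_left G' G h2 g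
    rw [h0, map_zero] at h3
    exact h3.symm
  gh := adu_sub_hom G hB.gh
  exp := by
    intro k x hx
    obtain ⟨α, hα, hx'⟩ := hB.exp k x hx
    refine ⟨fun j => adu_sub G (α j), fun j => adu_sub_hom G (hα j), ?_⟩
    simp only [AlgHom.comp_apply, adu_left G' G h2]
    exact hx'

theorem adu_dl_map {ι : MvPolynomial (Fin s) ℂ →ₐ[ℂ] Module.End ℂ V} {M : ℕ → Submodule ℂ V}
    (hM : Gr ι M) (G G' : Matrix (Fin s) (Fin s) ℂ) (h1 : G' * G = 1)
    (k : ℕ) (φ : (i : ℕ) → (M i →ₗ[ℂ] MvPolynomial (Fin s) ℂ)) (hφ : φ ∈ Dl ι M k) :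
    (fun i => (adu_sub G).toLinearMap ∘ₗ φ i) ∈ Dl (ι.comp (adu_sub G')) M k := by
  obtain ⟨hφ1, hφ2⟩ := hφ
  refine ⟨fun i x => adu_sub_hom G (hφ1 i x), fun i l x y hy => ?_⟩
  have hy2 : y = ∑ j, G' l j • (⟨ι (X j) x, hM.act i j x x.2⟩ : M (i + 1)) := by
    apply Subtype.ext
    rw [hy, AlgHom.comp_apply, adu_sub_X, map_sum, LinearMap.sum_apply]
    simp [map_smul]
  have h3 : φ (i + 1) y = adu_sub G' (X l) * φ i x := by
    rw [hy2, map_sum, adu_sub_X, Finset.sum_mul]
    refine Finset.sum_congr rfl fun j _ => ?_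
    rw [map_smul, hφ2 i j x _ rfl, smul_mul_assoc]
  simp only [LinearMap.comp_apply, AlgHom.toLinearMap_apply]
  rw [h3, map_mul, adu_left G G' h1]

theorem adu_comp_comp (ι : MvPolynomial (Fin s) ℂ →ₐ[ℂ] Module.End ℂ V)
    (G G' : Matrix (Fin s) (Fin s) ℂ) (h2 : G * G' = 1) :
    (ι.comp (adu_sub G')).comp (adu_sub G) = ι := by
  rw [AlgHom.comp_assoc, adu_sub_comp G' G h2, AlgHom.comp_id]

/-- the duals in the new coordinates -/
theorem adu_dl {ι : MvPolynomial (Fin s) ℂ →ₐ[ℂ] Module.End ℂ V} {M : ℕ → Submodule ℂ V}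
    (hM : Gr ι M) (G G' : Matrix (Fin s) (Fin s) ℂ) (h1 : G' * G = 1) (h2 : G * G' = 1) (k : ℕ) :
    Nonempty (Dl ι M k ≃ₗ[ℂ] Dl (ι.comp (adu_sub G')) M k) := by
  let F : ∀ (i : ℕ), Matrix (Fin s) (Fin s) ℂ → (M i →ₗ[ℂ] MvPolynomial (Fin s) ℂ) →ₗ[ℂ]
      (M i →ₗ[ℂ] MvPolynomial (Fin s) ℂ) := fun i H => (adu_sub H).toLinearMap.compRight ℂ
  refine ⟨LinearEquiv.ofLinearMap
    (LinearMap.codRestrict _ ((LinearMap.pi fun i => F i G ∘ₗ LinearMap.proj i) ∘ₗ
      (Dl ι M k).subtype) fun φ => adu_dl_map hM G G' h1 k φ φ.2)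
    (LinearMap.codRestrict _ ((LinearMap.pi fun i => F i G' ∘ₗ LinearMap.proj i) ∘ₗ
      (Dl (ι.comp (adu_sub G')) M k).subtype) fun φ => ?_) ?_ ?_⟩
  · have h := adu_dl_map (adu_gr hM G') G' G h2 k φ φ.2
    rw [adu_comp_comp ι G G' h2] at h
    exact h
  · apply LinearMap.ext
    intro φ
    apply Subtype.ext
    funext i
    apply LinearMap.ext
    intro x
    exact adu_left G G' h1 _
  · apply LinearMap.ext
    intro φ
    apply Subtype.ext
    funext i
    apply LinearMap.ext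
    intro x
    exact adu_left G' G h2 _

end Adu

theorem adu_matrix {n : ℕ} (c : Fin (n + 1) → ℂ) (hc : c ≠ 0) :
    ∃ G G' : Matrix (Fin (n + 1)) (Fin (n + 1)) ℂ, G' * G = 1 ∧ G * G' = 1 ∧
      ∀ i, G i 0 = c i := by
  have he : (Pi.single (0 : Fin (n + 1)) (1 : ℂ) : Fin (n + 1) → ℂ) ≠ 0 := by
    intro h
    have := congrFun h 0
    simp at this
  obtain ⟨A, hA⟩ := SeparatingDual.exists_continuousLinearEquiv_apply_eq (R := ℂ) he hc
  refine ⟨LinearMap.toMatrix' A.toLinearEquiv.toLinearMap,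
    LinearMap.toMatrix' A.toLinearEquiv.symm.toLinearMap, ?_, ?_, ?_⟩
  · rw [← LinearMap.toMatrix'_comp, LinearEquiv.comp_coe, LinearEquiv.self_trans_symm]
    exact LinearMap.toMatrix'_id
  · rw [← LinearMap.toMatrix'_comp, LinearEquiv.comp_coe, LinearEquiv.symm_trans_self]
    exact LinearMap.toMatrix'_id
  · intro i
    rw [LinearMap.toMatrix'_apply]
    exact congrFun hA i

theorem hADU (hABA : StABA) (hAKA : StAKA) (hALA : StALA) : StADU := by
  intro e V _ _ ι M he hM
  obtain ⟨ρ, u, du, δ0, f0, hB0⟩ := hABA (e + 1) V ι zm M hM.gr hM.fg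
  -- degree at least one
  have hB1 := adu_bas_mul hB0 1 (X 0) (X_ne_zero _) (adu_hp_natCast.mpr (isHomogeneous_X _ _))
  obtain ⟨c, hc⟩ : ∃ c : Fin (e + 1) → ℂ, eval c (X 0 * f0) ≠ 0 := by
    by_contra hcon
    push Not at hcon
    apply hB1.g0
    apply MvPolynomial.funext
    intro c
    rw [hcon c, map_zero]
  have hh1 : (X 0 * f0).IsHomogeneous (1 + δ0) := adu_hp_natCast.mp hB1.gh
  have hc0 : c ≠ 0 := by
    intro h0
    apply hc
    rw [map_mul, eval_X, h0]
    simp
  -- scale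
  have hB2 := adu_bas_mul hB1 0 (C (eval c (X 0 * f0))⁻¹)
    (by
      rw [Ne, ← C_0, (C_injective _ _).eq_iff]
      exact inv_ne_zero hc)
    (adu_hp_natCast.mpr (isHomogeneous_C _ _))
  set f : MvPolynomial (Fin (e + 1)) ℂ := C (eval c (X 0 * f0))⁻¹ * (X 0 * f0) with hfdef
  set δ : ℕ := 0 + (1 + δ0) with hδdef
  have hfc : eval c f = 1 := by
    rw [hfdef, map_mul, eval_C]
    exact inv_mul_cancel₀ hc
  have hfh : f.IsHomogeneous δ := adu_hp_natCast.mp hB2.gh
  have hδ : 1 ≤ δ := by omega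
  -- the rank is positive
  have hρ : 1 ≤ ρ := by
    by_contra hcon
    have hρ0 : ρ = 0 := by omega
    subst hρ0
    obtain ⟨k, hk⟩ := hM.ne
    apply hk
    rw [Submodule.eq_bot_iff]
    intro x hx
    obtain ⟨α, _, hx'⟩ := hB2.exp k x hx
    refine hM.tf f x hB2.g0 (Submodule.mem_iSup_of_mem k hx) ?_
    simpa [zm] using hx'
  -- coordinates
  obtain ⟨G, G', h1, h2, hG⟩ := adu_matrix c hc0
  have hL' : ∀ H H' : Matrix (Fin (e + 1)) (Fin (e + 1)) ℂ, H' * H = 1 → H * H' = 1 →
    Lat (ι.comp (adu_sub H')) M := fun H H' h h' => adu_lat hM H H' h h'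
  have hB3 := adu_bas hB2 G G' h1 h2
  have hMo : Mo (adu_sub G f) δ := by
    refine ⟨hB3.gh, ?_⟩
    rw [← adu_eval_single (adu_hp_natCast.mp hB3.gh)]
    have h3 : (aeval (Pi.single (0 : Fin (e + 1)) (1 : ℂ) : Fin (e + 1) → ℂ)).comp
        (adu_sub G) = (aeval c : MvPolynomial (Fin (e + 1)) ℂ →ₐ[ℂ] ℂ) := by
      apply MvPolynomial.algHom_ext
      intro i
      rw [AlgHom.comp_apply, adu_sub_X, map_sum, aeval_X, ← hG i]
      rw [Finset.sum_eq_single (0 : Fin (e + 1))]
      · simp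
      · intro j _ hj
        rw [map_smul, aeval_X, Pi.single_eq_of_ne hj, smul_zero]
      · intro hh
        exact absurd (Finset.mem_univ _) hh
    have h4 := congrArg (fun F => F f) h3
    simp only [AlgHom.comp_apply, MvPolynomial.aeval_eq_eval] at h4
    exact h4.trans hfc
  have hLat := adu_lat hM G G' h1 h2
  obtain ⟨L, hL1, hL2, hL3, hL4, hL5⟩ := hAKA e δ ρ V (ι.comp (adu_sub G')) M u du
    (adu_sub G f) hLat hB3
  obtain ⟨α, γ, hα, hA1, hA2⟩ := hALA e δ ρ he hδ hρ du (adu_sub G f) hMo L hL1 hL2 hL3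
  have hE : ∀ k, Nonempty (Dl ι M k ≃ₗ[ℂ] Dl (ι.comp (adu_sub G')) M k) :=
    fun k => adu_dl hM.gr G G' h1 h2 k
  refine ⟨fun k => ?_, α, γ, hα, ?_, ?_⟩
  · obtain ⟨E⟩ := hE k
    have hfin : Module.Finite ℂ (Dl (ι.comp (adu_sub G')) M k) := (hL5 k).1
    exact Module.Finite.equiv E.symm
  · have h3 : (fun k => (Module.finrank ℂ (M k) : ℝ)) =
        fun k => (Module.finrank ℂ (L k) : ℝ) := by
      funext k
      rw [hL4 k]
    rw [h3]
    exact hA1
  · have h3 : (fun k => (Module.finrank ℂ (Dl ι M k) : ℝ)) =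
        fun k => (Module.finrank ℂ (Lst (adu_sub G f) du L k) : ℝ) := by
      funext k
      obtain ⟨E⟩ := hE k
      rw [E.finrank_eq, (hL5 k).2]
    rw [h3]
    exact hA2

end Pool.Agent.Helper38.KPA
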